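import Pool.Agent.helper93.RG.Spec

set_option autoImplicit false

namespace Pool.Agent.RG

open Finset

theorem COR (hMAG : MAG_stmt) (hSUP : SUP_stmt) (hAFF : AFF_stmt) (hDIR : DIR_stmt)
    (hPUS : PUS_stmt) (hFLD : FLD_stmt) (hRTS : RTS_stmt) : COR_stmt := by
  intro n U X 𝒟 hU h𝒟 hsum L hL hcomm hder
  obtain ⟨j, hj⟩ : ∃ j, fox L j ≠ 0 := by
    by_contra h
    push Not at h
    exact hder (hMAG L hcomm h)
  obtain ⟨hsup, hl1⟩ := hSUP L j
  have hLn : (L.length : ℤ) ≤ n := by exact_mod_cast hL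
  obtain ⟨a, b, ha, haU, hb1, hba, hg⟩ :=
    hDIR n U (fox L j) hj (fun v hv => (hsup v hv).2.trans hLn) hU
  obtain ⟨hs, hl, hev⟩ := hPUS n U a b (fox L j) hba haU
    (fun v hv => ⟨(hsup v hv).1.trans hLn, (hsup v hv).2.trans hLn⟩)
  by_contra hcon
  have hfold : ∀ d ∈ 𝒟, 0 < d ∧ ∀ r : ℤ,
      ∑ i ∈ (push a b (fox L j)).support with i ≡ r [ZMOD d], (push a b (fox L j)) i = 0 := by
    intro d hd
    obtain ⟨hd0, hdX, q₁, q₂, hq1, hq2, hne, hd1, hd2, hq1X, hq2X, hn⟩ := h𝒟 d hd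
    refine ⟨hd0, ?_⟩
    apply hFLD d n q₁ q₂ _ hd0 hq1 hq2 hne hd1 hd2 hn ((hl.trans hl1).trans hLn)
    intro q hq t ht
    by_contra hne0
    apply hcon
    have hqp : q.Prime := by rcases hq with rfl | rfl <;> assumption
    have hqX : q ≤ X := by rcases hq with rfl | rfl <;> assumption
    have htd : ∀ i, (![t ^ a, t ^ b] : Fin 2 → (ZMod q)ˣ) i ^ d = 1 := by
      intro i
      fin_cases i
      · simp only [Fin.zero_eta, Matrix.cons_val_zero]
        rw [← pow_mul, mul_comm, pow_mul, ht, one_pow]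
      · simp only [Fin.mk_one, Matrix.cons_val_one, Matrix.cons_val_zero]
        rw [← pow_mul, mul_comm, pow_mul, ht, one_pow]
    obtain ⟨N, hN, hL', h0, hi⟩ := hAFF q d hqp hd0 ![t ^ a, t ^ b] htd L j (by
      have h1 := hev q t
      simp only [Matrix.cons_val_zero, Matrix.cons_val_one]
      rw [← h1]
      exact hne0)
    exact ⟨N, hN, hL', h0, hi.trans (Nat.mul_le_mul hqX hdX)⟩
  have h := hRTS (2 * n * U) _ 𝒟 hg (by
    intro i hi
    have := hs i hi
    push_cast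
    exact this) hfold
  have h4 : 2 * (2 * n * U) = 4 * n * U := by ring
  omega

end Pool.Agent.RG
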