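import Pool.Agent.helper93.RG.Spec

set_option autoImplicit false

namespace Pool.Agent.RG

open Finset

theorem FIN (hABE : ABE_stmt) (hCOR : COR_stmt) (hASY : ASY_stmt) : FIN_stmt := by
  obtain ⟨C, n₀, hC, hA⟩ := hASY
  -- the case of large n
  have big : ∀ n : ℕ, max n₀ 3 ≤ n → ∀ g : FreeGroup (Fin 2),
      g ∉ derivedSeries (FreeGroup (Fin 2)) 2 → (FreeGroup.toWord g).length ≤ n →
        ∃ N : Subgroup (FreeGroup (Fin 2)), N.Normal ∧ g ∉ N ∧ N.index ≠ 0 ∧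
          (N.index : ℝ) ≤ (C + 2) * (n : ℝ) ^ ((4 : ℝ) / 3) * Real.log n ^ 7 := by
    intro n hn g hg hlen
    have hn3 : 3 ≤ n := (le_max_right _ _).trans hn
    have hn3' : (3 : ℝ) ≤ n := by exact_mod_cast hn3
    have hlog : 1 ≤ Real.log n := by
      rw [Real.le_log_iff_exp_le (by linarith)]
      have := Real.exp_one_lt_d9
      linarith
    have hlog7 : 1 ≤ Real.log n ^ 7 := one_le_pow₀ hlog
    have hpow : (n : ℝ) ≤ (n : ℝ) ^ ((4 : ℝ) / 3) := by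
      conv_lhs => rw [← Real.rpow_one (n : ℝ)]
      exact Real.rpow_le_rpow_of_exponent_le (by linarith) (by norm_num)
    have hpos : 0 ≤ (n : ℝ) ^ ((4 : ℝ) / 3) := by positivity
    set L := FreeGroup.toWord g with hL
    have hgL : FreeGroup.mk L = g := FreeGroup.mk_toWord
    by_cases hcomm : g ∈ commutator (FreeGroup (Fin 2))
    · obtain ⟨U, X, 𝒟, h1, h2, h3, h4⟩ := hA n ((le_max_left _ _).trans hn)
      obtain ⟨N, hN, hgN, h0, hi⟩ := hCOR n U X 𝒟 h1 h2 h3 L hlen (by rw [hgL]; exact hcomm)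
        (by rw [hgL]; exact hg)
      refine ⟨N, hN, by rw [hgL] at hgN; exact hgN, h0, ?_⟩
      have h5 : (N.index : ℝ) ≤ ((X * X : ℕ) : ℝ) := by exact_mod_cast hi
      refine h5.trans (h4.trans ?_)
      have : 0 ≤ (n : ℝ) ^ ((4 : ℝ) / 3) * Real.log n ^ 7 := by positivity
      nlinarith
    · obtain ⟨N, hN, hgN, h0, hi⟩ := hABE L (by rw [hgL]; exact hcomm)
      refine ⟨N, hN, by rw [hgL] at hgN; exact hgN, h0, ?_⟩
      have h5 : (N.index : ℝ) ≤ n + 1 := by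
        have : N.index ≤ n + 1 := hi.trans (by omega)
        exact_mod_cast this
      have h6 : (n : ℝ) ≤ (n : ℝ) ^ ((4 : ℝ) / 3) * Real.log n ^ 7 := by
        nlinarith
      nlinarith
  set n₁ := max n₀ 3 with hn₁
  have hB0 : 0 ≤ (C + 2) * (n₁ : ℝ) ^ ((4 : ℝ) / 3) * Real.log n₁ ^ 7 := by
    have : 0 ≤ Real.log n₁ := Real.log_natCast_nonneg _
    positivity
  refine ⟨C + 2 + (C + 2) * (n₁ : ℝ) ^ ((4 : ℝ) / 3) * Real.log n₁ ^ 7, by linarith, ?_⟩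
  intro n hn g hg hlen
  have hn3' : (3 : ℝ) ≤ n := by exact_mod_cast hn
  have hlog : 1 ≤ Real.log n := by
    rw [Real.le_log_iff_exp_le (by linarith)]
    have := Real.exp_one_lt_d9
    linarith
  have hlog7 : 1 ≤ Real.log n ^ 7 := one_le_pow₀ hlog
  have hpow : 1 ≤ (n : ℝ) ^ ((4 : ℝ) / 3) := Real.one_le_rpow (by linarith) (by norm_num)
  have hprod : 1 ≤ (n : ℝ) ^ ((4 : ℝ) / 3) * Real.log n ^ 7 := one_le_mul_of_one_le_of_one_le hpow hlog7
  rcases le_or_gt n₁ n with h | h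
  · obtain ⟨N, hN, hgN, h0, hi⟩ := big n h g hg hlen
    refine ⟨N, hN, hgN, h0, hi.trans ?_⟩
    rw [mul_assoc, mul_assoc (C + 2 + _)]
    apply mul_le_mul_of_nonneg_right _ (by linarith)
    linarith
  · obtain ⟨N, hN, hgN, h0, hi⟩ := big n₁ le_rfl g hg (hlen.trans h.le)
    refine ⟨N, hN, hgN, h0, hi.trans ?_⟩
    rw [mul_assoc (C + 2 + _)]
    generalize (n : ℝ) ^ ((4 : ℝ) / 3) * Real.log n ^ 7 = P at hprod
    generalize (C + 2) * (n₁ : ℝ) ^ ((4 : ℝ) / 3) * Real.log n₁ ^ 7 = B at hB0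
    nlinarith

end Pool.Agent.RG
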