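import Pool.Agent.helper93.RG.Spec

set_option autoImplicit false

namespace Pool.Agent.RG

open Finset

theorem PUS : PUS_stmt := by
  intro n U a b f hba haU hf
  classical
  refine ⟨?_, ?_, ?_⟩
  · intro j hj
    have h1 := Finsupp.mapDomain_support hj
    obtain ⟨v, hv, rfl⟩ := Finset.mem_image.1 h1
    obtain ⟨h2, h3⟩ := hf v hv
    have haU' : (a : ℤ) ≤ U := by exact_mod_cast haU
    have hbU' : (b : ℤ) ≤ U := by exact_mod_cast (hba.le.trans haU)
    have ha0 : (0 : ℤ) ≤ a := Int.natCast_nonneg _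
    have hb0 : (0 : ℤ) ≤ b := Int.natCast_nonneg _
    have hn0 : (0 : ℤ) ≤ n := Int.natCast_nonneg _
    have e1 : |(a : ℤ) * v.1| ≤ U * n := by
      rw [abs_mul, abs_of_nonneg ha0]
      exact mul_le_mul haU' h2 (abs_nonneg _) (ha0.trans haU')
    have e2 : |(b : ℤ) * v.2| ≤ U * n := by
      rw [abs_mul, abs_of_nonneg hb0]
      exact mul_le_mul hbU' h3 (abs_nonneg _) (hb0.trans hbU')
    have e3 := abs_add_le ((a : ℤ) * v.1) ((b : ℤ) * v.2)
    linarith
  · have key : ∀ j ∈ (push a b f).support, |push a b f j| ≤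
        ∑ v ∈ f.support with (a : ℤ) * v.1 + (b : ℤ) * v.2 = j, |f v| := by
      intro j _
      have : push a b f j = ∑ v ∈ f.support with (a : ℤ) * v.1 + (b : ℤ) * v.2 = j, f v := by
        unfold push
        rw [Finsupp.mapDomain, Finsupp.sum_apply, Finsupp.sum, Finset.sum_filter]
        refine Finset.sum_congr rfl fun v _ => ?_
        rw [Finsupp.single_apply]
      rw [this]
      exact Finset.abs_sum_le_sum_abs _ _
    refine (Finset.sum_le_sum key).trans ?_
    rw [← Finset.sum_biUnion]
    · refine Finset.sum_le_sum_of_subset_of_nonneg ?_ (fun _ _ _ => abs_nonneg _)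
      intro v hv
      obtain ⟨j, _, hj⟩ := Finset.mem_biUnion.1 hv
      exact (Finset.mem_filter.1 hj).1
    · intro i _ j _ hij
      rw [Function.onFun, Finset.disjoint_left]
      intro v h1 h2
      exact hij ((Finset.mem_filter.1 h1).2.symm.trans (Finset.mem_filter.1 h2).2)
  · intro q t
    unfold ev1 ev push
    rw [Finsupp.sum_mapDomain_index]
    · refine Finset.sum_congr rfl fun v _ => ?_
      have : (t ^ ((a : ℤ) * v.1 + (b : ℤ) * v.2) : (ZMod q)ˣ) = (t ^ a) ^ v.1 * (t ^ b) ^ v.2 := by
        rw [zpow_add, zpow_mul, zpow_mul, zpow_natCast, zpow_natCast]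
      simp only [this]
    · intro j
      simp
    · intro j c c'
      push_cast
      ring

end Pool.Agent.RG
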