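import Pool.Agent.helper93.RG.Spec

set_option autoImplicit false

namespace Pool.Agent.RG

/-- The homomorphism counting the exponent sum of x_i. -/
noncomputable def ABE_h (i : Fin 2) : FreeGroup (Fin 2) →* Multiplicative ℤ :=
  FreeGroup.lift fun k => Multiplicative.ofAdd (if k = i then 1 else 0)

theorem ABE_bound (i : Fin 2) : ∀ L : List (Fin 2 × Bool),
    |(ABE_h i (FreeGroup.mk L)).toAdd| ≤ (L.length : ℤ)
  | [] => by
    have : ABE_h i (FreeGroup.mk []) = 1 := map_one _
    rw [this]
    simp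
  | (k, b) :: L => by
    have ih := ABE_bound i L
    have e1 : FreeGroup.mk ((k, b) :: L) = FreeGroup.mk [(k, b)] * FreeGroup.mk L := by
      rw [FreeGroup.mul_mk]
      rfl
    have e2 : |(ABE_h i (FreeGroup.mk [(k, b)])).toAdd| ≤ 1 := by
      unfold ABE_h
      rw [FreeGroup.lift_mk]
      cases b <;> by_cases hk : k = i <;> simp [hk]
    rw [e1, map_mul, toAdd_mul, List.length_cons]
    push_cast
    have := abs_add_le (ABE_h i (FreeGroup.mk [(k, b)])).toAdd (ABE_h i (FreeGroup.mk L)).toAdd
    linarith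

theorem ABE_comm (g : FreeGroup (Fin 2)) (h0 : ABE_h 0 g = 1) (h1 : ABE_h 1 g = 1) :
    g ∈ commutator (FreeGroup (Fin 2)) := by
  -- g is congruent to x₀^m₀ x₁^m₁ modulo the commutator subgroup
  have key : ∀ w : FreeGroup (Fin 2), (Abelianization.of w) =
      Abelianization.of (FreeGroup.of 0) ^ (ABE_h 0 w).toAdd *
        Abelianization.of (FreeGroup.of 1) ^ (ABE_h 1 w).toAdd := by
    intro w
    let ψ : FreeGroup (Fin 2) →* Abelianization (FreeGroup (Fin 2)) :=
      { toFun := fun w => Abelianization.of (FreeGroup.of 0) ^ (ABE_h 0 w).toAdd *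
          Abelianization.of (FreeGroup.of 1) ^ (ABE_h 1 w).toAdd
        map_one' := by simp
        map_mul' := by
          intro u v
          rw [(ABE_h 0).map_mul u v, (ABE_h 1).map_mul u v, toAdd_mul, toAdd_mul, zpow_add,
            zpow_add]
          exact mul_mul_mul_comm _ _ _ _ }
    have : (Abelianization.of : FreeGroup (Fin 2) →* _) = ψ := by
      ext k
      fin_cases k
      · simp [ψ, ABE_h]
      · simp [ψ, ABE_h]
    exact DFunLike.congr_fun this w
  have h := key g
  rw [h0, h1] at h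
  simp only [toAdd_one, zpow_zero, mul_one] at h
  rw [← Abelianization.ker_of]
  exact h

theorem ABE : ABE_stmt := by
  intro L hL
  obtain ⟨i, hi⟩ : ∃ i : Fin 2, ABE_h i (FreeGroup.mk L) ≠ 1 := by
    by_contra h
    push Not at h
    exact hL (ABE_comm _ (h 0) (h 1))
  set m : ℤ := (ABE_h i (FreeGroup.mk L)).toAdd with hm
  have hm0 : m ≠ 0 := by
    intro h
    apply hi
    rw [← toAdd_eq_zero]
    exact h
  have hmL : |m| ≤ L.length := ABE_bound i L
  let M : ℕ := m.natAbs + 1
  haveI : NeZero M := ⟨by simp [M]⟩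
  let c : Multiplicative ℤ →* Multiplicative (ZMod M) :=
    AddMonoidHom.toMultiplicative (Int.castAddHom (ZMod M))
  let ρ : FreeGroup (Fin 2) →* Multiplicative (ZMod M) := c.comp (ABE_h i)
  have hρ : ρ (FreeGroup.mk L) = Multiplicative.ofAdd ((m : ℤ) : ZMod M) := rfl
  refine ⟨ρ.ker, inferInstance, ?_, ?_, ?_⟩
  · rw [MonoidHom.mem_ker, hρ]
    intro h
    have h1 : ((m : ℤ) : ZMod M) = 0 := h
    rw [ZMod.intCast_zmod_eq_zero_iff_dvd] at h1
    have h2 := Int.le_of_dvd (abs_pos.2 hm0) ((dvd_abs _ _).2 h1)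
    have h3 : (M : ℤ) = |m| + 1 := by
      simp [M]
    omega
  · rw [Subgroup.index_ker]
    exact Nat.card_pos.ne'
  · rw [Subgroup.index_ker]
    have h1 : Nat.card ρ.range ≤ Nat.card (Multiplicative (ZMod M)) :=
      Nat.card_le_card_of_injective (fun x : ρ.range => (x : Multiplicative (ZMod M)))
        Subtype.val_injective
    have h2 : Nat.card (Multiplicative (ZMod M)) = M := by
      have h : Nat.card (ZMod M) = M := Nat.card_zmod M
      exact h
    have h3 : (M : ℤ) = |m| + 1 := by
      simp [M]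
    rw [h2] at h1
    omega

end Pool.Agent.RG
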