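import Pool.Agent.helper93.RG.SpecS

set_option autoImplicit false

namespace Pool.Agent.RG

open Matrix

theorem SMG_det {p : ℕ} (a z : ZMod p) : (V a z).det = 1 := by
  simp [V, Matrix.det_fin_two]
  ring

/-- V(a,z) as an element of SL₂. -/
def SMG_S {p : ℕ} (a z : ZMod p) : SpecialLinearGroup (Fin 2) (ZMod p) := ⟨V a z, SMG_det a z⟩

theorem SMG_mul {p : ℕ} (a z w : ZMod p) : SMG_S a z * SMG_S a w = SMG_S a (z + w) := by
  apply Subtype.ext
  change V a z * V a w = V a (z + w)
  ext i j
  fin_cases i <;> fin_cases j <;> simp [V, Matrix.mul_apply, Fin.sum_univ_two] <;> ring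

theorem SMG_zero {p : ℕ} (a : ZMod p) : SMG_S a 0 = 1 := by
  apply Subtype.ext
  change V a 0 = 1
  ext i j
  fin_cases i <;> fin_cases j <;> simp [V]

/-- The one parameter group. -/
def SMG_hom {p : ℕ} (a : ZMod p) : Multiplicative (ZMod p) →* SpecialLinearGroup (Fin 2) (ZMod p) where
  toFun z := SMG_S a z.toAdd
  map_one' := SMG_zero a
  map_mul' z w := (SMG_mul a _ _).symm

theorem SMG_zpow {p : ℕ} (a z : ZMod p) (m : ℤ) : SMG_S a z ^ m = SMG_S a (m * z) := by
  have h := map_zpow (SMG_hom a) (Multiplicative.ofAdd z) m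
  have h1 : SMG_hom a (Multiplicative.ofAdd z) = SMG_S a z := rfl
  rw [h1] at h
  rw [← h, ← ofAdd_zsmul]
  change SMG_S a (m • z) = _
  rw [zsmul_eq_mul]

theorem SMG_card (p : ℕ) (hp : p.Prime) :
    Nat.card (SpecialLinearGroup (Fin 2) (ZMod p)) ≤ p ^ 3 := by
  haveI := Fact.mk hp
  classical
  -- inject into (a,b,c) when a ≠ 0 and (b,d) when a = 0
  let T := (ZMod p)ˣ × ZMod p × ZMod p ⊕ (ZMod p)ˣ × ZMod p
  let f : SpecialLinearGroup (Fin 2) (ZMod p) → T := fun M =>
    if h : M.1 0 0 = 0 then Sum.inr (if h' : M.1 0 1 = 0 then 1 else Units.mk0 _ h', M.1 1 1)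
    else Sum.inl (Units.mk0 _ h, M.1 0 1, M.1 1 0)
  have hdet : ∀ M : SpecialLinearGroup (Fin 2) (ZMod p),
      M.1 0 0 * M.1 1 1 - M.1 0 1 * M.1 1 0 = 1 := by
    intro M
    have := M.2
    rwa [Matrix.det_fin_two] at this
  have hinj : Function.Injective f := by
    intro M N hMN
    have hM := hdet M
    have hN := hdet N
    by_cases h1 : M.1 0 0 = 0
    · by_cases h2 : N.1 0 0 = 0
      · have hb : M.1 0 1 ≠ 0 := by
          intro h
          rw [h1, h] at hM
          simp at hM
        have hb' : N.1 0 1 ≠ 0 := by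
          intro h
          rw [h2, h] at hN
          simp at hN
        have fM : f M = Sum.inr (if h' : M.1 0 1 = 0 then 1 else Units.mk0 _ h', M.1 1 1) :=
          dif_pos h1
        have fN : f N = Sum.inr (if h' : N.1 0 1 = 0 then 1 else Units.mk0 _ h', N.1 1 1) :=
          dif_pos h2
        rw [fM, fN] at hMN
        have e := Sum.inr.inj hMN
        have e1' := congrArg Prod.fst e
        have e2 : M.1 1 1 = N.1 1 1 := congrArg Prod.snd e
        simp only [dif_neg hb, dif_neg hb'] at e1'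
        have e1 : M.1 0 1 = N.1 0 1 := congrArg Units.val e1'
        have e3 : M.1 1 0 = N.1 1 0 := by
          rw [h1, zero_mul, zero_sub] at hM
          rw [h2, zero_mul, zero_sub, ← e1] at hN
          have : M.1 0 1 * M.1 1 0 = M.1 0 1 * N.1 1 0 := by
            rw [← neg_inj, hM, hN]
          exact mul_left_cancel₀ hb this
        apply Subtype.ext
        ext i j
        fin_cases i <;> fin_cases j
        · exact h1.trans h2.symm
        · exact e1
        · exact e3
        · exact e2
      · simp [f, h1, h2] at hMN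
    · by_cases h2 : N.1 0 0 = 0
      · simp [f, h1, h2] at hMN
      · have fM : f M = Sum.inl (Units.mk0 _ h1, M.1 0 1, M.1 1 0) := dif_neg h1
        have fN : f N = Sum.inl (Units.mk0 _ h2, N.1 0 1, N.1 1 0) := dif_neg h2
        rw [fM, fN] at hMN
        have e := Sum.inl.inj hMN
        have e1 : M.1 0 0 = N.1 0 0 := congrArg Units.val (congrArg Prod.fst e)
        have e2 : M.1 0 1 = N.1 0 1 := congrArg (fun x => x.2.1) e
        have e3 : M.1 1 0 = N.1 1 0 := congrArg (fun x => x.2.2) e
        have e4 : M.1 1 1 = N.1 1 1 := by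
          rw [← e1, ← e2, ← e3] at hN
          have : M.1 0 0 * M.1 1 1 = M.1 0 0 * N.1 1 1 := by
            linear_combination hM - hN
          exact mul_left_cancel₀ h1 this
        apply Subtype.ext
        ext i j
        fin_cases i <;> fin_cases j
        · exact e1
        · exact e2
        · exact e3
        · exact e4
  have h1 := Nat.card_le_card_of_injective f hinj
  refine h1.trans ?_
  have h2 : Nat.card T = (p - 1) * (p * p) + (p - 1) * p := by
    rw [Nat.card_eq_fintype_card]
    simp only [T, Fintype.card_sum, Fintype.card_prod, ZMod.card_units_eq_totient, ZMod.card,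
      Nat.totient_prime hp]
  rw [h2]
  obtain ⟨k, rfl⟩ : ∃ k, p = k + 1 := ⟨p - 1, by have := hp.pos; omega⟩
  simp only [Nat.add_sub_cancel]
  nlinarith [Nat.zero_le k]

theorem SMG (hSMP : SMP_stmt) : SMG_stmt := by
  intro r p hp hrp L hne hdiv hch hlen
  haveI := Fact.mk hp
  let g : Fin r × ℤ → ZMod p × ZMod p := fun s => ((s.1 : ℕ), (s.2 : ZMod p))
  obtain ⟨z, hz⟩ := hSMP p hp (L.map g) (by simpa using hne)
    (by
      intro u hu
      obtain ⟨s, hs, rfl⟩ := List.mem_map.1 hu
      intro h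
      exact hdiv s hs ((ZMod.intCast_zmod_eq_zero_iff_dvd _ _).1 h))
    (by
      rw [List.isChain_map]
      refine hch.imp ?_
      intro s s' hss h
      apply hss
      have h1 : ((s.1 : ℕ) : ZMod p) = ((s'.1 : ℕ) : ZMod p) := h
      rw [ZMod.natCast_eq_natCast_iff'] at h1
      rw [Nat.mod_eq_of_lt (s.1.2.trans_le hrp), Nat.mod_eq_of_lt (s'.1.2.trans_le hrp)] at h1
      exact Fin.ext h1)
    (by rw [List.length_map]; exact hlen)
  let ρ : FreeGroup (Fin r) →* SpecialLinearGroup (Fin 2) (ZMod p) :=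
    FreeGroup.lift fun i => SMG_S ((i : ℕ) : ZMod p) z
  have hρ : ∀ M : List (Fin r × ℤ),
      ((ρ (pw M) : SpecialLinearGroup (Fin 2) (ZMod p)) : Matrix (Fin 2) (Fin 2) (ZMod p)) =
        ((M.map g).map fun s => V s.1 (s.2 * z)).prod := by
    intro M
    induction M with
    | nil => simp [pw]
    | cons s M ih =>
      have e1 : pw (s :: M) = FreeGroup.of s.1 ^ s.2 * pw M := by simp [pw]
      rw [e1, map_mul, map_zpow]
      have e2 : ρ (FreeGroup.of s.1) = SMG_S ((s.1 : ℕ) : ZMod p) z := by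
        simp [ρ]
      rw [e2, SMG_zpow]
      have e3 : ((SMG_S ((s.1 : ℕ) : ZMod p) ((s.2 : ZMod p) * z) * ρ (pw M) :
          SpecialLinearGroup (Fin 2) (ZMod p)) : Matrix (Fin 2) (Fin 2) (ZMod p)) =
          V ((s.1 : ℕ) : ZMod p) ((s.2 : ZMod p) * z) *
            ((ρ (pw M) : SpecialLinearGroup (Fin 2) (ZMod p)) :
              Matrix (Fin 2) (Fin 2) (ZMod p)) := rfl
      rw [e3, ih]
      simp only [List.map_cons, List.prod_cons]
      rfl
  refine ⟨ρ.ker, inferInstance, ?_, ?_, ?_⟩
  · rw [MonoidHom.mem_ker]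
    intro h
    apply hz
    rw [← hρ L, h]
    simp
  · rw [Subgroup.index_ker]
    exact Nat.card_pos.ne'
  · rw [Subgroup.index_ker]
    refine le_trans ?_ (SMG_card p hp)
    exact Nat.card_le_card_of_injective (fun x : ρ.range => (x : SpecialLinearGroup (Fin 2) (ZMod p)))
      Subtype.val_injective

end Pool.Agent.RG
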