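import Pool.Agent.helper93.RG.SpecS

set_option autoImplicit false

namespace Pool.Agent.RG

open Polynomial Matrix

theorem SMP_cx {p : ℕ} (m : ZMod p) : (C m * X : (ZMod p)[X]).natDegree ≤ 1 :=
  (natDegree_C_mul_le _ _).trans natDegree_X_le

theorem SMP_col (p : ℕ) [Fact p.Prime] : ∀ (L : List (ZMod p × ZMod p)) (s : ZMod p × ZMod p),
    (∀ u ∈ s :: L, u.2 ≠ 0) → (s :: L).IsChain (fun u u' => u.1 ≠ u'.1) →
    ∃ (A B : (ZMod p)[X]) (c : ZMod p), c ≠ 0 ∧ A.natDegree ≤ L.length + 1 ∧
      B.natDegree ≤ L.length + 1 ∧ A.coeff (L.length + 1) = c ∧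
      B.coeff (L.length + 1) = c * s.1 ∧
      ∀ z : ZMod p, ((s :: L).map fun u => V u.1 (u.2 * z)).prod *ᵥ ![0, 1] =
        ![A.eval z, B.eval z]
  | [], s, h0, _ => by
    obtain ⟨a, m⟩ := s
    have hm : m ≠ 0 := h0 (a, m) (by simp)
    refine ⟨C (-m) * X, 1 + C (-m * a) * X, -m, neg_ne_zero.2 hm, ?_, ?_, ?_, ?_, ?_⟩
    · simp only [List.length_nil, zero_add]
      exact (SMP_cx _)
    · simp only [List.length_nil, zero_add]
      refine (natDegree_add_le _ _).trans ?_
      simp only [natDegree_one, max_le_iff]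
      exact ⟨by norm_num, SMP_cx _⟩
    · simp
    · simp [coeff_one]
    · intro z
      ext i
      fin_cases i
      · simp [V, Matrix.mulVec, dotProduct, Fin.sum_univ_two]
      · simp [V, Matrix.mulVec, dotProduct, Fin.sum_univ_two]
        ring
  | t :: L, s, h0, hch => by
    obtain ⟨a, m⟩ := s
    have hm : m ≠ 0 := h0 (a, m) (by simp)
    rw [List.isChain_cons_cons] at hch
    obtain ⟨hne, hch⟩ := hch
    obtain ⟨A, B, c, hc, hA, hB, hAc, hBc, hz⟩ :=
      SMP_col p L t (fun u hu => h0 u (List.mem_cons_of_mem _ hu)) hch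
    have hne' : a - t.1 ≠ 0 := sub_ne_zero.2 hne
    have hdeg : (C m * X * (C a * A - B)).natDegree ≤ (t :: L).length + 1 := by
      refine natDegree_mul_le.trans ?_
      have h1 : (C m * X : (ZMod p)[X]).natDegree ≤ 1 := SMP_cx _
      have h2 : (C a * A - B).natDegree ≤ L.length + 1 := by
        refine (natDegree_sub_le _ _).trans (max_le ?_ hB)
        exact (natDegree_C_mul_le _ _).trans hA
      simp only [List.length_cons]
      omega
    have hcoef : (C m * X * (C a * A - B)).coeff ((t :: L).length + 1) = m * c * (a - t.1) := by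
      simp only [List.length_cons]
      rw [mul_assoc, coeff_C_mul, coeff_X_mul, coeff_sub, coeff_C_mul, hAc, hBc]
      ring
    have hA0 : A.coeff ((t :: L).length + 1) = 0 := by
      apply coeff_eq_zero_of_natDegree_lt
      simp only [List.length_cons]
      omega
    have hB0 : B.coeff ((t :: L).length + 1) = 0 := by
      apply coeff_eq_zero_of_natDegree_lt
      simp only [List.length_cons]
      omega
    refine ⟨A + C m * X * (C a * A - B), B + C m * X * (C a * A - B) * C a,
      m * c * (a - t.1), by simp [hm, hc, hne'], ?_, ?_, ?_, ?_, ?_⟩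
    · refine (natDegree_add_le _ _).trans (max_le ?_ hdeg)
      simp only [List.length_cons]
      omega
    · refine (natDegree_add_le _ _).trans (max_le ?_ ?_)
      · simp only [List.length_cons]
        omega
      · exact (natDegree_mul_C_le _ _).trans hdeg
    · rw [coeff_add, hA0, hcoef, zero_add]
    · rw [coeff_add, hB0, coeff_mul_C, hcoef, zero_add]
    · intro z
      have h := hz z
      rw [List.map_cons, List.prod_cons, ← Matrix.mulVec_mulVec, h]
      ext i
      fin_cases i
      · simp [V, Matrix.mulVec, dotProduct, Fin.sum_univ_two]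
        ring
      · simp [V, Matrix.mulVec, dotProduct, Fin.sum_univ_two]
        ring

theorem SMP : SMP_stmt := by
  intro p hp L hne h0 hch hlen
  haveI := Fact.mk hp
  obtain ⟨s, L', rfl⟩ : ∃ s L', L = s :: L' := List.exists_cons_of_ne_nil hne
  obtain ⟨A, B, c, hc, hA, hB, hAc, hBc, hz⟩ := SMP_col p L' s h0 hch
  by_contra hcon
  push Not at hcon
  have hev : ∀ z : ZMod p, A.eval z = 0 := by
    intro z
    have h := hz z
    rw [hcon z, Matrix.one_mulVec] at h
    have := congrFun h 0
    simpa using this.symm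
  have hA0 : A = 0 := by
    apply Polynomial.eq_zero_of_natDegree_lt_card_of_eval_eq_zero A
      (f := (id : ZMod p → ZMod p)) Function.injective_id
    · intro i
      exact hev i
    · rw [ZMod.card]
      simp only [List.length_cons] at hlen
      omega
  rw [hA0, coeff_zero] at hAc
  exact hc hAc.symm

end Pool.Agent.RG
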