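import Pool.Agent.helper93.RG.SFI
import Pool.Agent.helper93.RG.SMP
import Pool.Agent.helper93.RG.SMG
import Pool.Agent.helper52.RG.SRE
import Pool.Agent.helper34.RG.SPR

/-!
Residual finiteness growth of free groups: words with few syllables.
-/

set_option autoImplicit false

namespace Pool.Agent.RG.FewSyllables

/-- For every rank r there is C such that every nontrivial element g of the free group of rank r
which is a product of at most k powers of generators, with sum of the absolute values of the
exponents at most n, lies outside some normal subgroup of finite index at most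
C (k log (2 + n / k))³. -/
theorem result (r : ℕ) : ∃ C : ℝ, 0 < C ∧
    ∀ (k n : ℕ) (g : FreeGroup (Fin r)) (L : List (Fin r × ℤ)), 1 ≤ k → g ≠ 1 →
      g = (L.map fun s => FreeGroup.of s.1 ^ s.2).prod → L.length ≤ k →
      (L.map fun s => |s.2|).sum ≤ (n : ℤ) →
        ∃ N : Subgroup (FreeGroup (Fin r)), N.Normal ∧ g ∉ N ∧ N.index ≠ 0 ∧
          (N.index : ℝ) ≤ C * (k * Real.log (2 + (n : ℝ) / k)) ^ 3 := by
  obtain ⟨C, hC, h⟩ := Pool.Agent.RG.SFI Pool.Agent.RG.SRE
    (Pool.Agent.RG.SMG Pool.Agent.RG.SMP) Pool.Agent.RG.SPR r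
  refine ⟨C, hC, ?_⟩
  intro k n g L hk hg hgL hL hs
  subst hgL
  exact h k n hk L hL hs hg

end Pool.Agent.RG.FewSyllables
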