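import Pool.Agent.helper93.RG.Spec

set_option autoImplicit false

namespace Pool.Agent.RG

open Finset Polynomial

theorem RTS : RTS_stmt := by
  intro M g 𝒟 hg hM h𝒟
  classical
  -- the polynomial
  let P : ℂ[X] := ∑ j ∈ g.support, monomial (j + M).toNat ((g j : ℤ) : ℂ)
  have hnn : ∀ j ∈ g.support, 0 ≤ j + M := by
    intro j hj
    have := hM j hj
    rw [abs_le] at this
    linarith
  have hcoef : ∀ j ∈ g.support, P.coeff (j + M).toNat = (g j : ℂ) := by
    intro j hj
    simp only [P, finsetSum_coeff, coeff_monomial]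
    rw [Finset.sum_eq_single j]
    · simp
    · intro i hi hij
      rw [if_neg]
      intro h
      apply hij
      have h1 := hnn i hi
      have h2 := hnn j hj
      omega
    · intro h
      exact absurd hj h
  have hP0 : P ≠ 0 := by
    obtain ⟨j, hj⟩ := Finsupp.support_nonempty_iff.2 hg
    intro h
    have h1 := hcoef j hj
    rw [h, coeff_zero] at h1
    have h2 : (g j : ℂ) ≠ 0 := by exact_mod_cast Finsupp.mem_support_iff.1 hj
    exact h2 h1.symm
  have hdeg : P.natDegree ≤ 2 * M := by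
    apply natDegree_sum_le_of_forall_le
    intro j hj
    refine (natDegree_monomial_le _).trans ?_
    have h1 := hM j hj
    rw [abs_le] at h1
    omega
  have hroot : ∀ d ∈ 𝒟, ∀ ζ ∈ primitiveRoots d ℂ, P.eval ζ = 0 := by
    intro d hd ζ hζ
    obtain ⟨hd0, hfold⟩ := h𝒟 d hd
    have hprim : IsPrimitiveRoot ζ d := (mem_primitiveRoots hd0).1 hζ
    have hζ0 : ζ ≠ 0 := hprim.ne_zero hd0.ne'
    have hζd : ζ ^ (d : ℤ) = 1 := by rw [zpow_natCast]; exact hprim.pow_eq_one
    have e1 : P.eval ζ = ζ ^ (M : ℤ) * ∑ j ∈ g.support, (g j : ℂ) * ζ ^ j := by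
      simp only [P, eval_finset_sum, eval_monomial]
      rw [Finset.mul_sum]
      refine Finset.sum_congr rfl fun j hj => ?_
      have h1 := hnn j hj
      have h2 : ζ ^ (j + M).toNat = ζ ^ (j + M : ℤ) := by
        rw [← zpow_natCast, Int.toNat_of_nonneg h1]
      rw [h2, zpow_add₀ hζ0]
      ring
    have e2 : ∑ j ∈ g.support, (g j : ℂ) * ζ ^ j = 0 := by
      have hd0' : (d : ℤ) ≠ 0 := by exact_mod_cast hd0.ne'
      have h3 : ∀ j : ℤ, ζ ^ j = ζ ^ (j % (d : ℤ)) := by
        intro j
        conv_lhs => rw [← Int.emod_add_mul_ediv j d]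
        rw [zpow_add₀ hζ0, zpow_mul, hζd, one_zpow, mul_one]
      have h4 : ∀ j ∈ g.support, j % (d : ℤ) ∈ Finset.Ico (0 : ℤ) d := by
        intro j _
        rw [Finset.mem_Ico]
        exact ⟨Int.emod_nonneg _ hd0', Int.emod_lt_of_pos _ (by exact_mod_cast hd0)⟩
      rw [← Finset.sum_fiberwise_of_maps_to h4]
      refine Finset.sum_eq_zero fun r hr => ?_
      have h5 : ∑ j ∈ g.support with j % (d : ℤ) = r, (g j : ℂ) * ζ ^ j =
          (∑ j ∈ g.support with j ≡ r [ZMOD d], (g j : ℂ)) * ζ ^ r := by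
        rw [Finset.sum_mul]
        have h6 : (g.support.filter fun j => j % (d : ℤ) = r) =
            g.support.filter fun j => j ≡ r [ZMOD d] := by
          refine Finset.filter_congr fun j _ => ?_
          rw [Int.ModEq]
          rw [Finset.mem_Ico] at hr
          rw [Int.emod_eq_of_lt hr.1 hr.2]
        rw [← h6]
        refine Finset.sum_congr rfl fun j hj => ?_
        rw [h3 j, (Finset.mem_filter.1 hj).2]
      rw [h5]
      have h7 := hfold r
      have h8 : (∑ j ∈ g.support with j ≡ r [ZMOD d], (g j : ℂ)) = 0 := by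
        exact_mod_cast h7
      rw [h8, zero_mul]
    rw [e1, e2, mul_zero]
  have hdisj : (𝒟 : Set ℕ).PairwiseDisjoint fun d => primitiveRoots d ℂ := by
    intro d hd d' hd' hne
    rw [Function.onFun, Finset.disjoint_left]
    intro ζ h1 h2
    have hp1 := (mem_primitiveRoots (h𝒟 d hd).1).1 h1
    have hp2 := (mem_primitiveRoots (h𝒟 d' hd').1).1 h2
    exact hne (hp1.unique hp2)
  have hcard : ∑ d ∈ 𝒟, Nat.totient d = (𝒟.biUnion fun d => primitiveRoots d ℂ).card := by
    rw [Finset.card_biUnion hdisj]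
    refine Finset.sum_congr rfl fun d _ => ?_
    rw [Complex.card_primitiveRoots]
  rw [hcard]
  have hsub : (𝒟.biUnion fun d => primitiveRoots d ℂ) ⊆ P.roots.toFinset := by
    intro ζ hζ
    obtain ⟨d, hd, h1⟩ := Finset.mem_biUnion.1 hζ
    rw [Multiset.mem_toFinset, mem_roots hP0]
    exact hroot d hd ζ h1
  calc (𝒟.biUnion fun d => primitiveRoots d ℂ).card ≤ P.roots.toFinset.card :=
        Finset.card_le_card hsub
    _ ≤ Multiset.card P.roots := Multiset.toFinset_card_le _
    _ ≤ P.natDegree := card_roots' P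
    _ ≤ 2 * M := hdeg

end Pool.Agent.RG
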