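import Pool.Agent.helper93.RG.SpecS

set_option autoImplicit false

namespace Pool.Agent.RG

open Finset

theorem SFI (hSRE : SRE_stmt) (hSMG : SMG_stmt) (hSPR : SPR_stmt) : SFI_stmt := by
  intro r
  obtain ⟨C, hC, h⟩ := hSPR r
  refine ⟨C ^ 3, by positivity, ?_⟩
  intro k n hk L hL hsum hne
  obtain ⟨L', h0, hch, hpw, hlen, hs⟩ := hSRE r L
  have hne' : L' ≠ [] := by
    rintro rfl
    apply hne
    rw [← hpw]
    simp [pw]
  obtain ⟨p, hp, hkp, hrp, hdiv, hle⟩ := h k n (L'.map fun s => s.2) hk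
    (by rw [List.length_map]; exact hlen.trans hL)
    (by
      intro m hm
      obtain ⟨s, hs1, rfl⟩ := List.mem_map.1 hm
      exact h0 s hs1)
    (by
      rw [List.map_map]
      exact hs.trans hsum)
  obtain ⟨N, hN, hgN, hi0, hi⟩ := hSMG r p hp hrp.le L' hne'
    (by
      intro s hs1
      exact hdiv s.2 (List.mem_map.2 ⟨s, hs1, rfl⟩)) hch (lt_of_le_of_lt (hlen.trans hL) hkp)
  refine ⟨N, hN, by rw [← hpw]; exact hgN, hi0, ?_⟩
  calc (N.index : ℝ) ≤ ((p ^ 3 : ℕ) : ℝ) := by exact_mod_cast hi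
    _ = (p : ℝ) ^ 3 := by push_cast; ring
    _ ≤ (C * (k * Real.log (2 + (n : ℝ) / k))) ^ 3 := by
        apply pow_le_pow_left₀ (Nat.cast_nonneg _) hle
    _ = C ^ 3 * (k * Real.log (2 + (n : ℝ) / k)) ^ 3 := by ring

end Pool.Agent.RG
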