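import Mathlib

/-!
# Project rg (MP_ea7dc1_al): residual finiteness growth of free groups, words outside the second
derived subgroup

THEOREM W. There is C such that every w in the free group F of rank 2, of length at most n
(n at least 3), which is not in the second derived subgroup F'' lies outside some normal subgroup
N of index at most C n^(4/3) (log n)^7.

PAPER PROOF (helper14). If w is not in F', some exponent sum m is nonzero and F -> ℤ/(|m|+1) does
it (row ABE). Let w be in F' but not in F''. By Magnus (row MAG) one of the Fox derivatives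
f = c_j(w), a function ℤ² -> ℤ, is nonzero; it is supported in [-n,n]² and has l1 norm at most n
(row SUP). For a prime q and units t_0, t_1 of F_q with t_i^d = 1 the affine maps
x_i : z -> t_i z + δ_ij generate a group of order at most q d in which w moves 0 to f(t_0,t_1)
(row AFF). Choose U, about (n log n)^(1/3), with ∑_{a ≤ U prime} a (a-1) > 2 n (row PRM). Then for
some prime a ≤ U and some 1 ≤ b < a the polynomial g(t) = f(t^a,t^b) is nonzero (row DIR). It has
exponents in [-2nU,2nU] and l1 norm at most n (row PUS). Let d be such that there are primes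
q_1 ≠ q_2 with d | q_i - 1 and q_1 q_2 > n. If g vanishes at all t in F_q with t^d = 1 for
q = q_1, q_2, then g vanishes modulo t^d - 1 (row FLD). If this happens for all d in a set 𝒟,
then ∑_{d in 𝒟} φ(d) ≤ 4 n U (row RTS). By Siegel-Walfisz (row SWE, GDD) for large x there are
at least c x / (log x)² such d ≥ c x / log x, with q_1, q_2 ≤ 2 x, and φ(d) ≥ d / (1 + log_2 d)
(row TOT). With x about (n U)^(1/2) (log n)^3 this is a contradiction (row ASY), so for some d and
q = q_i and some t we have g(t) ≠ 0, and w is detected by a group of order at most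
q d ≤ 4 x² ≤ C n^(4/3) (log n)^7 (rows COR, FIN).
-/

set_option autoImplicit false

namespace Pool.Agent.RG

open Finset

/-- The two unit vectors of ℤ². -/
def e (i : Fin 2) : ℤ × ℤ := if i = 0 then (1, 0) else (0, 1)

/-- Fox derivative of a word with respect to the j-th generator, as a function on ℤ²:
the derivative of the empty word is 0, that of x_i u is [i = j] + x_i (derivative of u), that of
x_i⁻¹ u is -[i = j] x_i⁻¹ + x_i⁻¹ (derivative of u). -/
noncomputable def fox : List (Fin 2 × Bool) → Fin 2 → ((ℤ × ℤ) →₀ ℤ)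
  | [], _ => 0
  | (i, true) :: L, j =>
      (if i = j then Finsupp.single 0 1 else 0) + (fox L j).mapDomain (fun v => e i + v)
  | (i, false) :: L, j =>
      (if i = j then Finsupp.single (-e i) (-1) else 0) + (fox L j).mapDomain (fun v => -e i + v)

/-- Value of a Laurent polynomial in two variables at a pair of units. -/
noncomputable def ev {K : Type} [CommRing K] (s t : Kˣ) (f : (ℤ × ℤ) →₀ ℤ) : K :=
  f.sum fun v c => (c : K) * ((s ^ v.1 * t ^ v.2 : Kˣ) : K)

/-- Value of a Laurent polynomial in one variable at a unit. -/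
noncomputable def ev1 {K : Type} [CommRing K] (t : Kˣ) (g : ℤ →₀ ℤ) : K :=
  g.sum fun j c => (c : K) * ((t ^ j : Kˣ) : K)

/-- The substitution x = t^a, y = t^b: the one variable Laurent polynomial f(t^a,t^b). -/
noncomputable def push (a b : ℕ) (f : (ℤ × ℤ) →₀ ℤ) : ℤ →₀ ℤ :=
  f.mapDomain fun v => (a : ℤ) * v.1 + (b : ℤ) * v.2

/-! ## Group theory -/

/-- ABE (short-medium). Words outside the commutator subgroup.
Proof. Let m_i be the exponent sum of x_i in the word L (the value of the homomorphism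
F → Multiplicative ℤ, x_i ↦ 1, x_j ↦ 0, at mk L). If m_0 = m_1 = 0 then mk L is in the commutator
subgroup: the abelianization of the free group on Fin 2 is free abelian on two generators; or by
hand: modulo the commutator subgroup mk L is x_0^{m_0} x_1^{m_1}. So some m_i ≠ 0, and
|m_i| ≤ length L. Let M = |m_i| + 1 ≥ 2 and let N be the kernel of F → Multiplicative (ZMod M),
x_i ↦ 1, x_j ↦ 0 (j ≠ i). As M does not divide m_i, mk L is not in N, and
the index of N is the order of the image, at most M ≤ length L + 1 (Subgroup.index_ker,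
Nat.card_le_card_of_injective or similar). -/
def ABE_stmt : Prop :=
  ∀ L : List (Fin 2 × Bool), FreeGroup.mk L ∉ commutator (FreeGroup (Fin 2)) →
    ∃ N : Subgroup (FreeGroup (Fin 2)), N.Normal ∧ FreeGroup.mk L ∉ N ∧ N.index ≠ 0 ∧
      N.index ≤ L.length + 1

/-- MAG (medium). Magnus: a word in F' with vanishing Fox derivatives is in F''.
Proof. Let A be the subgroup F' of F, F'' its commutator subgroup (derivedSeries F 2 = ⁅F', F'⁆),
and π : F → F/F''. The images of elements of F' commute with each other. For v in ℤ² put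
s(v) = x_0^{v.1} x_1^{v.2} in F and, for j in Fin 2, g(v,j) = s(v) x_j s(v + e j)⁻¹. The image of
g(v,j) in ℤ² (the abelianization) is v + e j - (v + e j) = 0, so g(v,j) is in F' (an element whose
two exponent sums vanish is in the commutator subgroup).
For two finitely supported functions c_0, c_1 on ℤ² let Φ(c) be the product in the commutative
group F'/F'' of the classes of g(v,j)^{c_j(v)}; Φ is additive (take for instance the additive
homomorphism ((ℤ × ℤ) →₀ ℤ) → Additive (F'/F'') given by Finsupp.liftAddHom or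
Finsupp.linearCombination for each j, with F'/F'' = Abelianization of the group F').
CLAIM: for every word L and every v in ℤ², writing u = mk L and |u| for its image in ℤ²,
the class of s(v) u s(v + |u|)⁻¹ is Φ of the pair of functions fox L j, translated by v.
Induction on L. Empty word: s(v) s(v)⁻¹ = 1. For x_i u:
s(v) x_i u s(v + e i + |u|)⁻¹ = g(v,i) · s(v + e i) u s((v + e i) + |u|)⁻¹, and
fox ((i,true) :: L) j = [i=j] δ_0 + translation by e i of fox L j. For x_i⁻¹ u:
s(v) x_i⁻¹ u s(v - e i + |u|)⁻¹ = g(v - e i, i)⁻¹ · s(v - e i) u s((v - e i) + |u|)⁻¹, and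
fox ((i,false) :: L) j = -[i=j] δ_{-e i} + translation by -e i of fox L j.
Now let u = mk L be in F', so |u| = 0, and fox L j = 0 for both j. With v = 0, s(0) = 1, the
CLAIM says that the class of u in F'/F'' is trivial, so u is in F''. -/
def MAG_stmt : Prop :=
  ∀ L : List (Fin 2 × Bool), FreeGroup.mk L ∈ commutator (FreeGroup (Fin 2)) →
    (∀ j : Fin 2, fox L j = 0) → FreeGroup.mk L ∈ derivedSeries (FreeGroup (Fin 2)) 2

/-- SUP (short). Support and l1 norm of the Fox derivatives.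
Proof. Induction on L, the first step moves the support by ±e i (each coordinate by at most 1) and
adds at most one point, 0 or -e i, with coefficient ±1. The l1 norm of a sum is at most the sum of
the l1 norms and mapDomain along an injective map keeps the l1 norm (or use that mapDomain never
increases it). A convenient form of the l1 norm is f.sum fun _ c => |c|. -/
def SUP_stmt : Prop :=
  ∀ (L : List (Fin 2 × Bool)) (j : Fin 2),
    (∀ v ∈ (fox L j).support, |v.1| ≤ (L.length : ℤ) ∧ |v.2| ≤ (L.length : ℤ)) ∧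
      ∑ v ∈ (fox L j).support, |fox L j v| ≤ (L.length : ℤ)

/-- AFF (medium). The finite affine quotients.
Proof. Let ρ : F → Equiv.Perm (ZMod q) be the homomorphism with ρ(x_i) : z ↦ t_i z + [i = j]
(FreeGroup.lift). Induction on L: ρ(mk L)(z) = τ(L) z + ev (t 0) (t 1) (fox L j) with a unit τ(L)
(for x_i u: t_i (τ z + ev c) + [i=j], and ev of the translate by e i of c is t_i ev c; for x_i⁻¹ u:
the inverse of x_i is z ↦ t_i⁻¹ z - t_i⁻¹ [i=j]). So ρ(mk L)(0) = ev (fox L j) ≠ 0 and mk L is not in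
N = ker ρ. All ρ(w) are of the form z ↦ u z + c with u^d = 1 (each generator has this form with
u = t_i, and the maps of this form are a subgroup), so the range of ρ has at most q d elements:
u is a root of X^d - 1 in the field ZMod q (at most d of them, card_rootsOfUnity or
card_nthRoots / Polynomial.card_nthRoots) and there are q values of c. Index of the kernel = order
of the range (Subgroup.index_ker). -/
def AFF_stmt : Prop :=
  ∀ (q d : ℕ), q.Prime → 0 < d → ∀ t : Fin 2 → (ZMod q)ˣ, (∀ i, t i ^ d = 1) →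
    ∀ (L : List (Fin 2 × Bool)) (j : Fin 2), ev (t 0) (t 1) (fox L j) ≠ 0 →
      ∃ N : Subgroup (FreeGroup (Fin 2)), N.Normal ∧ FreeGroup.mk L ∉ N ∧ N.index ≠ 0 ∧
        N.index ≤ q * d

/-! ## Polynomials -/

/-- DIR (medium). A good direction (a,b).
Proof. Suppose push a b f = 0 for all primes a ≤ U and all 1 ≤ b < a. Write
f = ∑_k f_k(x) y^k with Laurent polynomials f_k in x, |k| ≤ n; some f_k is nonzero, so there is a
real number x₀ > 1 with f_k(x₀) ≠ 0 (a nonzero Laurent polynomial has finitely many zeros). Then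
P(Y) = Y^n f(x₀,Y) is a nonzero polynomial over ℂ of degree at most 2 n. Let a ≤ U be a prime and
1 ≤ b < a. For each of the a complex numbers t with t^a = x₀ the identity f(t^a,t^b) = 0 (push a b f
is zero; evaluate at t ≠ 0) says that Y = t^b is a root of P. For fixed (a,b) different t give
different t^b: if t^a = s^a and t^b = s^b then t/s has order dividing gcd(a,b) = 1. For different
(a,b) the absolute values x₀^{b/a} are different, because the fractions b/a are different (a prime,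
0 < b < a; real powers of x₀ > 1 are injective). So P has at least ∑_{a ≤ U prime} (a-1) a > 2 n
roots, contradiction. (One can count by the injection from triples (a,b,k), k < a, to roots
Y = x₀^{b/a} exp(2πi k/a): it is the b-th power of t = x₀^{1/a} exp(2πi k'/a), k' b = k mod a.) -/
def DIR_stmt : Prop :=
  ∀ (n U : ℕ) (f : (ℤ × ℤ) →₀ ℤ), f ≠ 0 → (∀ v ∈ f.support, |v.2| ≤ (n : ℤ)) →
    2 * n < ∑ a ∈ (range (U + 1)).filter Nat.Prime, a * (a - 1) →
      ∃ a b : ℕ, a.Prime ∧ a ≤ U ∧ 1 ≤ b ∧ b < a ∧ push a b f ≠ 0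

/-- PUS (short). Elementary properties of the substitution.
Proof. Finsupp.mapDomain_support, the triangle inequality (|a v.1 + b v.2| ≤ 2 n U),
Finsupp.sum_mapDomain_index for the value. For the l1 norm: mapDomain f at j is the sum of f v over
v in the support with a v.1 + b v.2 = j. -/
def PUS_stmt : Prop :=
  ∀ (n U a b : ℕ) (f : (ℤ × ℤ) →₀ ℤ), b < a → a ≤ U →
    (∀ v ∈ f.support, |v.1| ≤ (n : ℤ) ∧ |v.2| ≤ (n : ℤ)) →
      (∀ j ∈ (push a b f).support, |j| ≤ 2 * (n : ℤ) * U) ∧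
      ∑ j ∈ (push a b f).support, |push a b f j| ≤ ∑ v ∈ f.support, |f v| ∧
      ∀ (q : ℕ) (t : (ZMod q)ˣ), ev1 t (push a b f) = ev (t ^ a) (t ^ b) f

/-- FLD (medium). Two primes force divisibility by t^d - 1.
Proof. For r = 0, ..., d-1 let G(r) be the sum of the g j with j ≡ r mod d. For q = q₁ or q₂ and t in
F_q with t^d = 1 we have 0 = ev1 t g = ∑_{r<d} G(r) t^r (t^j depends only on j mod d). The
polynomial ∑_{r<d} G(r) X^r over F_q has degree less than d and vanishes at all d solutions of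
t^d = 1 (there are exactly d of them because d | q - 1 and the group of units is cyclic of order
q - 1), so all its coefficients are 0: q | G(r). Hence q₁ q₂ | G(r) (distinct primes), but
|G(r)| ≤ ∑ |g j| ≤ n < q₁ q₂, so G(r) = 0. -/
def FLD_stmt : Prop :=
  ∀ (d n q₁ q₂ : ℕ) (g : ℤ →₀ ℤ), 0 < d → q₁.Prime → q₂.Prime → q₁ ≠ q₂ →
    d ∣ q₁ - 1 → d ∣ q₂ - 1 → n < q₁ * q₂ → ∑ j ∈ g.support, |g j| ≤ (n : ℤ) →
    (∀ q : ℕ, q = q₁ ∨ q = q₂ → ∀ t : (ZMod q)ˣ, t ^ d = 1 → ev1 t g = 0) →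
      ∀ r : ℤ, ∑ j ∈ g.support with j ≡ r [ZMOD d], g j = 0

/-- RTS (short-medium). Counting roots of unity.
Proof. P(X) = ∑_j g(j) X^{j+M} is a nonzero polynomial over ℂ of degree at most 2 M. Let d be in 𝒟
and let ζ be a primitive d-th root of unity. Grouping j by its residue mod d,
P(ζ) = ζ^M ∑_r ζ^r ∑_{j ≡ r} g(j) = 0. There are φ(d) primitive d-th roots of unity
(Complex.card_primitiveRoots) and the sets for different d are disjoint
(IsPrimitiveRoot.disjoint or IsPrimitiveRoot.unique). A nonzero polynomial of degree at most 2 M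
has at most 2 M roots. -/
def RTS_stmt : Prop :=
  ∀ (M : ℕ) (g : ℤ →₀ ℤ) (𝒟 : Finset ℕ), g ≠ 0 → (∀ j ∈ g.support, |j| ≤ (M : ℤ)) →
    (∀ d ∈ 𝒟, 0 < d ∧ ∀ r : ℤ, ∑ j ∈ g.support with j ≡ r [ZMOD d], g j = 0) →
      ∑ d ∈ 𝒟, Nat.totient d ≤ 2 * M

/-! ## Arithmetic -/

/-- TOT (short-medium). An elementary lower bound for Euler's function.
Proof. For a finite set S of integers ≥ 2 with s elements ∏_{p in S} p ≤ (s+1) ∏_{p in S} (p-1):
induction on s, remove the largest element m; S is contained in {2, ..., m}, so m ≥ s + 1, hence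
m s ≤ (s+1)(m-1), and ∏ over the rest ≤ s ∏ (p-1). For S the set of prime divisors of d:
d ∏ (p-1) = φ(d) ∏ p (Nat.totient_mul_prod_primeFactors), so d ≤ φ(d) (s+1). Finally
2^s ≤ ∏ p ≤ d, so s ≤ log_2 d. -/
def TOT_stmt : Prop :=
  ∀ d : ℕ, 0 < d → d ≤ Nat.totient d * (Nat.log 2 d + 1)

/-- PRM (medium). Choice of U by Chebyshev.
Proof. By Mathlib (Chebyshev.theta_ge and Chebyshev.theta_le_log4_mul_x)
θ(U) ≥ U log 2 - log(U+1) - 2 √U log U and θ(U/4) ≤ (U/4) log 4 = U (log 2)/2. So for U ≥ U₀ the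
primes in (U/4, U] have ∑ log p ≥ (log 2) U / 4 and their number is at least
(log 2) U / (4 log U) ≥ U / (6 log U). Each of them has a (a-1) ≥ a²/2 ≥ U²/32, so
∑_{a ≤ U prime} a (a-1) ≥ c U³ / log U for U ≥ U₀, c = 1/192. Given n ≥ 3 take
U = ⌈K (n log n)^{1/3}⌉ with a constant K ≥ U₀, K ≥ 2, K³ ≥ 2000/c (say): then U ≥ U₀ (as
n log n ≥ 1), U ≤ (K+1) (n log n)^{1/3}, log U ≤ log (2K) + log n ≤ (1 + log (2K)) log n, and
c U³ / log U ≥ c K³ n / (1 + log(2K)) > 2 n if K is large. -/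
def PRM_stmt : Prop :=
  ∃ C : ℝ, 0 < C ∧ ∀ n : ℕ, 3 ≤ n → ∃ U : ℕ, 1 ≤ U ∧
    2 * n < ∑ a ∈ (range (U + 1)).filter Nat.Prime, a * (a - 1) ∧
    (U : ℝ) ≤ C * ((n : ℝ) * Real.log n) ^ ((1 : ℝ) / 3)

/-- SWE (medium; from the Siegel-Walfisz theorem, import Pool.Agent.helper74.TG.SW, theorem
Pool.Agent.helper74.TG.siegel_walfisz). Primes congruent to 1 mod e in (x,2x].
Proof. Use siegel_walfisz with A = 4, B = 2 at the real number 2x, b = 1, with u = 2x and u = x and
subtract: for large x and e ≤ (log x)² ≤ (log 2x)² the sum of Λ(m) over x < m ≤ 2x, m ≡ 1 mod e is at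
least x/φ(e) - 2 C (2x)/(log 2x)^4 ≥ x/e - 4 C x/(log x)^4. Prime powers p^k, k ≥ 2, contribute at
most ψ(2x) - θ(2x) ≤ 2 √(2x) log(2x) (Chebyshev.psi_sub_theta_le). So the sum of log p over the primes
p ≡ 1 mod e in (x,2x] is at least x/e - 4 C x/(log x)^4 - 2 √(2x) log (2x) ≥ x/(2e) for
large x, because x/(2e) ≥ x/(2 (log x)²). Each term is at most log(2x) ≤ 2 log x. -/
def SWE_stmt : Prop :=
  ∃ x₀ : ℕ, ∀ x : ℕ, x₀ ≤ x → ∀ e : ℕ, 0 < e → (e : ℝ) ≤ Real.log x ^ 2 →
    (x : ℝ) / (4 * e * Real.log x) ≤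
      (((Ioc x (2 * x)).filter fun p => p.Prime ∧ p ≡ 1 [MOD e]).card : ℝ)

/-- GDD (medium). Many d with two primes q ≡ 1 mod d, q in (x,2x].
Proof. Let E = ⌈32 log x⌉, x large, so 2E ≤ (log x)². By SWE the number P of pairs (e,q) with
E ≤ e < 2E, q in (x,2x] prime, q ≡ 1 mod e is at least ∑_e x/(4 e log x) ≥ E x / (8 E log x) =
x/(8 log x). Put d = (q-1)/e, so q = e d + 1, x/(2E) ≤ d (as e d = q - 1 ≥ x and e < 2E) and
d ≤ (2x)/E. For given d at most one q for each e, so at most E pairs; the number of d is at most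
2x/E ≤ x/(16 log x). Let 𝒟 be the set of d which come from at least two pairs. Then
P ≤ 2x/E + |𝒟| E, so |𝒟| ≥ x/(16 E log x) ≥ c x/(log x)². Two pairs (e,q), (e',q') with the same d
and (e,q) ≠ (e',q') have q ≠ q' (q = q' gives e d = e' d, e = e'). -/
def GDD_stmt : Prop :=
  ∃ (c : ℝ) (x₀ : ℕ), 0 < c ∧ ∀ x : ℕ, x₀ ≤ x → ∃ 𝒟 : Finset ℕ,
    (∀ d ∈ 𝒟, 0 < d ∧ d ≤ 2 * x ∧ c * x / Real.log x ≤ (d : ℝ) ∧
      ∃ q₁ q₂ : ℕ, q₁.Prime ∧ q₂.Prime ∧ q₁ ≠ q₂ ∧ d ∣ q₁ - 1 ∧ d ∣ q₂ - 1 ∧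
        x < q₁ ∧ q₁ ≤ 2 * x ∧ x < q₂ ∧ q₂ ≤ 2 * x) ∧
    c * x / Real.log x ^ 2 ≤ (𝒟.card : ℝ)

/-! ## Assembly -/

/-- COR (short-medium; uses MAG SUP AFF DIR PUS FLD RTS). The finite core of the proof.
Proof. By MAG some f = fox L j is nonzero. By SUP it is supported in [-n,n]² with l1 norm at most
n (n ≥ length). By DIR there are a prime a ≤ U and 1 ≤ b < a with g = push a b f ≠ 0; by PUS g is
supported in [-2nU,2nU], has l1 norm ≤ n and ev1 t g = ev (t^a) (t^b) f. If for all d in 𝒟 all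
residue class sums of g mod d vanish, then RTS with M = 2 n U gives ∑ φ(d) ≤ 4 n U, contradiction.
So there is d in 𝒟 and r with nonzero sum; by FLD (contrapositive) there are q in {q₁,q₂} and
t in (ZMod q)ˣ with t^d = 1 and ev1 t g ≠ 0. AFF with t_0 = t^a, t_1 = t^b gives N of
index ≤ q d ≤ X X. -/
def COR_stmt : Prop :=
  ∀ (n U X : ℕ) (𝒟 : Finset ℕ),
    2 * n < ∑ a ∈ (range (U + 1)).filter Nat.Prime, a * (a - 1) →
    (∀ d ∈ 𝒟, 0 < d ∧ d ≤ X ∧ ∃ q₁ q₂ : ℕ, q₁.Prime ∧ q₂.Prime ∧ q₁ ≠ q₂ ∧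
      d ∣ q₁ - 1 ∧ d ∣ q₂ - 1 ∧ q₁ ≤ X ∧ q₂ ≤ X ∧ n < q₁ * q₂) →
    4 * n * U < ∑ d ∈ 𝒟, Nat.totient d →
    ∀ L : List (Fin 2 × Bool), L.length ≤ n →
      FreeGroup.mk L ∈ commutator (FreeGroup (Fin 2)) →
      FreeGroup.mk L ∉ derivedSeries (FreeGroup (Fin 2)) 2 →
      ∃ N : Subgroup (FreeGroup (Fin 2)), N.Normal ∧ FreeGroup.mk L ∉ N ∧ N.index ≠ 0 ∧
        N.index ≤ X * X

/-- ASY (medium; uses PRM GDD TOT). Choice of the parameters.
Proof. Let C₁ be the constant of PRM, U = U(n), and c, x₀ from GDD. Put x = ⌈(nU)^{1/2} (log n)³⌉,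
X = 2 x. For n large: x ≥ x₀, x ≥ √n, so q₁ q₂ > x² ≥ n; and log x ≤ 2 log n (as
x ≤ 2 (nU)^{1/2} (log n)³ ≤ n² for n large, U ≤ C₁ (n log n)^{1/3} ≤ n). For d in 𝒟:
φ(d) ≥ d/(log_2 d + 1) ≥ c' x/(log x)² (by TOT; log_2 d + 1 ≤ log_2 (2x) + 1 ≤ 6 log x and
d ≥ c x/log x). So ∑ φ(d) ≥ (c x/(log x)²) (c' x/(log x)²) = c'' x²/(log x)^4 ≥
c'' n U (log n)^6/(2 log n)^4 > 4 n U for n large. Finally X² = 4 x² ≤ 16 n U (log n)^6 ≤
16 C₁ n (n log n)^{1/3} (log n)^6 ≤ 16 C₁ n^{4/3} (log n)^7 (log n ≥ 1). -/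
def ASY_stmt : Prop :=
  ∃ (C : ℝ) (n₀ : ℕ), 0 < C ∧ ∀ n : ℕ, n₀ ≤ n → ∃ (U X : ℕ) (𝒟 : Finset ℕ),
    2 * n < ∑ a ∈ (range (U + 1)).filter Nat.Prime, a * (a - 1) ∧
    (∀ d ∈ 𝒟, 0 < d ∧ d ≤ X ∧ ∃ q₁ q₂ : ℕ, q₁.Prime ∧ q₂.Prime ∧ q₁ ≠ q₂ ∧
      d ∣ q₁ - 1 ∧ d ∣ q₂ - 1 ∧ q₁ ≤ X ∧ q₂ ≤ X ∧ n < q₁ * q₂) ∧
    4 * n * U < ∑ d ∈ 𝒟, Nat.totient d ∧
    ((X * X : ℕ) : ℝ) ≤ C * (n : ℝ) ^ ((4 : ℝ) / 3) * Real.log n ^ 7

/-- FIN (short-medium; uses ABE COR ASY). The theorem.
Proof. Let C, n₀ be from ASY, n₁ = max n₀ 3. For n ≥ n₁: if g is not in the commutator subgroup use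
ABE with L = g.toWord (FreeGroup.mk_toWord): index ≤ n + 1 ≤ 2 n ≤ 2 n^{4/3} (log n)^7
(log n ≥ 1 as n ≥ 3). Otherwise COR with the parameters of ASY. For 3 ≤ n < n₁ apply the case n₁ to g
(its length is ≤ n ≤ n₁): index ≤ B with the constant B = (C + 2) n₁^{4/3} (log n₁)^7, and
n^{4/3} (log n)^7 ≥ 1. So C' = C + 2 + B works. -/
def FIN_stmt : Prop :=
  ∃ C : ℝ, 0 < C ∧ ∀ n : ℕ, 3 ≤ n → ∀ g : FreeGroup (Fin 2),
    g ∉ derivedSeries (FreeGroup (Fin 2)) 2 → (FreeGroup.toWord g).length ≤ n →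
      ∃ N : Subgroup (FreeGroup (Fin 2)), N.Normal ∧ g ∉ N ∧ N.index ≠ 0 ∧
        (N.index : ℝ) ≤ C * (n : ℝ) ^ ((4 : ℝ) / 3) * Real.log n ^ 7

end Pool.Agent.RG
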