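import Mathlib

/-!
# Project rg (MP_ea7dc1_al), second theorem: words with few syllables

THEOREM S. For every r there is C such that every w ≠ 1 in the free group of rank r which is a
product of at most k powers of generators, with sum of the absolute values of the exponents at most
n, lies outside some normal subgroup of index at most C (k log (2 + n/k))³.
In particular all words of length n with at most c √n / log n syllables satisfy the conjectured
bound C n^(3/2).

PAPER PROOF (helper93). Bring w into reduced form: k ≥ 1 syllables x_{a_j}^{m_j}, a_j ≠ a_{j+1},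
m_j ≠ 0 (row SRE). Choose a prime p > max(k, r), p ≤ C k log (2 + n/k), dividing no m_j
(row SPR: the product of the (1 + |m_j|) is at most (1 + n/k)^k, against Chebyshev). Let
v_a = (1,a)^T, ξ_a = (a,-1), so ξ_a v_a = 0, ξ_a v_b = a - b; the matrices
V(a,z) = 1 + z v_a ξ_a of SL_2(F_p) satisfy V(a,z)^m = V(a,mz). In the product of the V(a_j,m_j z) the
coefficient of z^k is ∏ m_j ∏ (a_j - a_{j+1}) v_{a_1} ξ_{a_k} ≠ 0, and k < p, so the product is not
the identity for some z in F_p (row SMP). So x_a ↦ V(a,z) is a homomorphism to SL_2(F_p), a group of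
order at most p³, which does not kill w (row SMG).
-/

set_option autoImplicit false

namespace Pool.Agent.RG

open Finset

/-- The product of the powers of generators given by a list of pairs (generator, exponent). -/
def pw {r : ℕ} (L : List (Fin r × ℤ)) : FreeGroup (Fin r) :=
  (L.map fun s => FreeGroup.of s.1 ^ s.2).prod

/-- The matrix V(a,z) = 1 + z v_a ξ_a, v_a = (1,a)^T, ξ_a = (a,-1). -/
def V {p : ℕ} (a z : ZMod p) : Matrix (Fin 2) (Fin 2) (ZMod p) :=
  !![1 + z * a, -z; z * a * a, 1 - z * a]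

/-- SRE (short-medium). Reduced form.
Proof. Induction on L. Let L' be a reduced list for the tail and (i,m) the first pair. If m = 0 take
L'. If L' is empty or its first generator is not i take (i,m) :: L'. If L' = (i,m') :: L'' take
(i,m+m') :: L'' when m + m' ≠ 0, and L'' otherwise (x_i^m x_i^{m'} = x_i^{m+m'}; a tail of a chain is a
chain). Lengths and sums of |exponents| do not increase. -/
def SRE_stmt : Prop :=
  ∀ (r : ℕ) (L : List (Fin r × ℤ)), ∃ L' : List (Fin r × ℤ), (∀ s ∈ L', s.2 ≠ 0) ∧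
    L'.IsChain (fun s s' => s.1 ≠ s'.1) ∧ pw L' = pw L ∧ L'.length ≤ L.length ∧
    (L'.map fun s => |s.2|).sum ≤ (L.map fun s => |s.2|).sum

/-- SMP (short-medium). The matrix product is not constant equal to 1.
Proof. Work with matrices over the polynomial ring F_p[X] and let (A,B)^T be the second column of
the product of the V(a_j, m_j X), k = length of L. Claim: A and B have degree at most k and their
coefficients of X^k are c and c a_1 with c ≠ 0. Induction: for k = 1,
V(a,mX)(0,1)^T = (0,1)^T - mX (1,a)^T. Step: V(a,mX)(A,B)^T = (A,B)^T + m X (a A - B) (1,a)^T, and the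
coefficient of X^k in a A - B is c (a - a_1) ≠ 0. If the product were 1 for all z in F_p, then A would
have p roots, more than its degree k < p, so A = 0, contradiction with the coefficient c. -/
def SMP_stmt : Prop :=
  ∀ (p : ℕ), p.Prime → ∀ L : List (ZMod p × ZMod p), L ≠ [] → (∀ s ∈ L, s.2 ≠ 0) →
    L.IsChain (fun s s' => s.1 ≠ s'.1) → L.length < p →
      ∃ z : ZMod p, (L.map fun s => V s.1 (s.2 * z)).prod ≠ 1

/-- SMG (medium; uses SMP). The homomorphism to SL_2(F_p).
Proof. V(a,z) has determinant (1 + az)(1 - az) + a² z² = 1 and V(a,z) V(a,z') = V(a,z+z'), so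
V(a,z)^m = V(a,mz) for all integers m. Apply SMP to the list of (i mod p, m mod p): for i ≠ i' in Fin r,
r ≤ p, the classes mod p are different, and the m are nonzero mod p. With the z obtained, the
homomorphism F_r → SL(2,ZMod p), x_i ↦ V(i,z) (FreeGroup.lift) maps pw L to the product of
the V(i,mz), which is ≠ 1. Its kernel N has index the order of the range, which is at most
the order of SL(2,ZMod p), at most p³: for a ≠ 0 the entries a, b, c determine d = (1+bc)/a, at most
(p-1) p² matrices; for a = 0 we have bc = -1, at most (p-1) p matrices; in total p³ - p (or use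
Matrix.card_GL_field and the surjection det). -/
def SMG_stmt : Prop :=
  ∀ (r p : ℕ), p.Prime → r ≤ p → ∀ L : List (Fin r × ℤ), L ≠ [] → (∀ s ∈ L, ¬ (p : ℤ) ∣ s.2) →
    L.IsChain (fun s s' => s.1 ≠ s'.1) → L.length < p →
      ∃ N : Subgroup (FreeGroup (Fin r)), N.Normal ∧ pw L ∉ N ∧ N.index ≠ 0 ∧ N.index ≤ p ^ 3

/-- SPR (medium). The prime.
Proof. Put T = k log(2 + n/k) ≥ k log 2. Pad M with zeros to a list of k numbers; by the AM-GM
inequality ∏ |m| ≤ ∏ (1 + |m|) ≤ (1 + n/k)^k (k numbers 1 + |m|, with sum at most k + n), so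
log ∏ |m| ≤ T. Let Y = max k r and X = ⌈K T⌉ with a large constant K depending on r. If all primes p in
(Y,X] divided some m in M, they would divide ∏ |m| ≠ 0, so their product would be at most ∏ |m|,
θ(X) - θ(Y) ≤ T. But θ(X) ≥ X log 2 - log(X+1) - 2 √X log X ≥ X (log 2)/2 for X ≥ X₀
(Chebyshev.theta_ge) and θ(Y) ≤ Y log 4 ≤ (k + r) log 4 ≤ 2 T + r log 4 (Chebyshev.theta_le_log4_mul_x),
a contradiction if K (log 2)² / 2 > (3 log 2 + r log 4) + 1 and K log 2 ≥ X₀ (recall T ≥ log 2).
And p ≤ X ≤ K T + 1 ≤ (K + 2) T. -/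
def SPR_stmt : Prop :=
  ∀ r : ℕ, ∃ C : ℝ, 0 < C ∧ ∀ (k n : ℕ) (M : List ℤ), 1 ≤ k → M.length ≤ k → (∀ m ∈ M, m ≠ 0) →
    (M.map fun m => |m|).sum ≤ (n : ℤ) →
      ∃ p : ℕ, p.Prime ∧ k < p ∧ r < p ∧ (∀ m ∈ M, ¬ (p : ℤ) ∣ m) ∧
        (p : ℝ) ≤ C * (k * Real.log (2 + (n : ℝ) / k))

/-- SFI (short; uses SRE SMG SPR). The theorem.
Proof. Reduce L by SRE to L' (not empty, as pw L' = pw L ≠ 1), apply SPR to the exponents of L' and
SMG: index ≤ p³ ≤ C³ (k log (2 + n/k))³. -/
def SFI_stmt : Prop :=
  ∀ r : ℕ, ∃ C : ℝ, 0 < C ∧ ∀ (k n : ℕ), 1 ≤ k → ∀ L : List (Fin r × ℤ), L.length ≤ k →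
    (L.map fun s => |s.2|).sum ≤ (n : ℤ) → pw L ≠ 1 →
      ∃ N : Subgroup (FreeGroup (Fin r)), N.Normal ∧ pw L ∉ N ∧ N.index ≠ 0 ∧
        (N.index : ℝ) ≤ C * (k * Real.log (2 + (n : ℝ) / k)) ^ 3

end Pool.Agent.RG
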